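import Pool.Agent.W_MP_f46629_al.H89_Top

namespace Pool.Agent.Results.MP_f46629_al.RadicalNotIsolated

universe u

/-- A radical class of groups: closed under homomorphic images and under normal subgroups, and
containing every group that is generated by its normal subgroups lying in the class. -/
structure IsRadical (X : ∀ (G : Type u) [Group G], Prop) : Prop where
  image : ∀ (G H : Type u) [Group G] [Group H] (f : G →* H), Function.Surjective f → X G → X H
  normal : ∀ (G : Type u) [Group G] (N : Subgroup G), N.Normal → X G → X N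
  join : ∀ (G : Type u) [Group G], sSup {N : Subgroup G | N.Normal ∧ X N} = ⊤ → X G

/-- The class is closed under arbitrary subgroups. -/
def IsHereditary (X : ∀ (G : Type u) [Group G], Prop) : Prop :=
  ∀ (G : Type u) [Group G] (H : Subgroup G), X G → X H

/-- The `X`-radical of `G`: the subgroup generated by all normal subgroups lying in `X`. -/
def radicalOf (X : ∀ (G : Type u) [Group G], Prop) (G : Type u) [Group G] : Subgroup G :=
  sSup {N : Subgroup G | N.Normal ∧ X N}

/-- Isolated subgroups. -/
def Isolated {G : Type u} [Group G] (H : Subgroup G) : Prop :=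
  ∀ (g : G) (n : ℕ), 1 ≤ n → g ^ n ∈ H → g ∈ H

/-- Torsion-free groups. -/
def TorsionFree (G : Type u) [Group G] : Prop :=
  ∀ (g : G) (n : ℕ), 1 ≤ n → g ^ n = 1 → g = 1

/-- Locally nilpotent groups. -/
def LocallyNilpotent (G : Type u) [Group G] : Prop :=
  ∀ K : Subgroup G, K.FG → Group.IsNilpotent K

open Pool.Agent.W_MP_f46629_al.H89 Cardinal

theorem pow_mem_R {L : Type u} [LinearOrder L] (g : GG L) : ∃ k : ℕ, g ^ (2 ^ k) ∈ RR L := by
  obtain ⟨K, hK⟩ := nilp_of_mem g.2
  refine ⟨K, ?_⟩
  change ((g ^ (2 ^ K) : GG L) : (EE L)ˣ) ∈ R2 L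
  obtain ⟨c, hc⟩ := one_add_two_pow_form (((g : (EE L)ˣ) : EE L) - 1) K
  refine ⟨c, ?_⟩
  have h1 : (((g : (EE L)ˣ) : EE L) - 1) ^ (2 ^ K) = 0 :=
    pow_eq_zero_of_le Nat.lt_two_pow_self.le hK
  rw [h1, add_zero, add_sub_cancel] at hc
  rw [← hc]
  simp

/-- There are a hereditary radical `X` and a torsion-free locally nilpotent group `G` such that
the `X`-radical of `G` is not isolated in `G`. -/
theorem result : ∃ X : (∀ (G : Type u) [Group G], Prop), IsRadical X ∧ IsHereditary X ∧
    ∃ (G : Type u) (_ : Group G), TorsionFree G ∧ LocallyNilpotent G ∧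
      ¬ Isolated (radicalOf X G) := by
  let L0 : Type u := (Order.succ ((2 : Cardinal.{u}) ^ (bw : Cardinal.{u}))).ord.ToType
  have hL0 : (2 : Cardinal.{u}) ^ (bw : Cardinal.{u}) < #L0 := by
    rw [mk_ord_toType]
    exact Order.lt_succ _
  have hnt : Nontrivial L0 := by
    rw [← one_lt_iff_nontrivial]
    refine lt_of_le_of_lt ?_ hL0
    exact one_le_aleph0.trans (aleph0_le_bw.trans (cantor _).le)
  have hrad : IsRadical (fun (G : Type u) [Group G] => XX L0 G) := by
    refine ⟨?_, ?_, ?_⟩
    · intro G H _ _ f hf hG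
      exact hG.of_sec (IsSec.of_surjective f hf)
    · intro G _ N _ hG
      exact hG.of_sec (IsSec.of_injective N.subtype N.subtype_injective)
    · intro G _ hG
      exact XX.join _ (fun N hN => hN) hG
  refine ⟨fun (G : Type u) [Group G] => XX L0 G, hrad, ?_, GG (Lex (L0 × ℕ)), inferInstance,
    ?_, ?_, ?_⟩
  · intro G _ H hG
    exact hG.of_sec (IsSec.of_injective H.subtype H.subtype_injective)
  · intro g n hn hg
    apply Subtype.ext
    exact torsion_free_aux g.2 hn (by
      have := congrArg Subtype.val hg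
      simpa using this)
  · intro K hK
    exact GG_locally_nilpotent K hK
  · intro hiso
    have hR : RR (Lex (L0 × ℕ)) ≤ radicalOf (fun (G : Type u) [Group G] => XX L0 G)
        (GG (Lex (L0 × ℕ))) :=
      le_sSup ⟨RR_normal, XX_R hL0⟩
    have htop : radicalOf (fun (G : Type u) [Group G] => XX L0 G) (GG (Lex (L0 × ℕ))) = ⊤ := by
      rw [eq_top_iff]
      intro g _
      obtain ⟨k, hk⟩ := pow_mem_R g
      exact hiso g (2 ^ k) Nat.one_le_two_pow (hR hk)
    have hX : XX L0 (GG (Lex (L0 × ℕ))) := hrad.join _ htop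
    exact hX _ (IsSec.of_surjective (QuotientGroup.mk' (RR (Lex (L0 × ℕ))))
      (QuotientGroup.mk'_surjective _)) KK_quot

end Pool.Agent.Results.MP_f46629_al.RadicalNotIsolated
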